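import Pool.Agent.Run7.h885.GF.Up
import Pool.Agent.Run7.h885.FS.Fro
import Pool.Agent.Run7.h885.FS.Defs
import Pool.Agent.Run7.h885.FS.Hit

/-!
Random compact sets and fixed sets, from one-point and two-point bounds of exponent `q`.
-/

namespace Pool.Agent.Run7.h885.GF

open MeasureTheory TopologicalSpace Filter Topology Set Metric
open scoped ENNReal
open Pool.Agent.Run7.h885.FS

variable [MeasurableSpace (NonemptyCompacts ℂ)] [BorelSpace (NonemptyCompacts ℂ)]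

omit [BorelSpace (NonemptyCompacts ℂ)] in
/-- upper bound by the content -/
theorem content_up {D : Set ℂ} (hD : IsOpen D) {q C0 : ℝ} (hq : 0 < q) (hC0 : 0 ≤ C0)
    {Q : Set ℂ} (hQ : IsCompact Q) (hQD : Q ⊆ D) :
    ∃ C : ℝ, 0 < C ∧ ∀ μ : Measure (NonemptyCompacts ℂ), IsProbabilityMeasure μ →
      HU μ D q C0 → ∀ S ⊆ Q,
        μ {K | ((K : Set ℂ) ∩ S).Nonempty} ≤ ENNReal.ofReal C * content q S := by
  obtain ⟨d, hd0, hdD⟩ := hQ.exists_thickening_subset_open hD hQD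
  refine ⟨(C0 + 1) * (1 / d) ^ q, by positivity, ?_⟩
  set C := (C0 + 1) * (1 / d) ^ q with hC
  have hCpos : 0 < C := by positivity
  intro μ hμp hit S hS
  have e0 : ∀ r : ℝ, 0 < r → C * r ^ q = (C0 + 1) * (r / d) ^ q := by
    intro r hr
    rw [hC, mul_assoc, ← Real.mul_rpow (by positivity) hr.le]
    congr 2; ring
  have h1 : ∀ z ∈ Q, ∀ r : ℝ, 0 < r →
      μ {K | ((K : Set ℂ) ∩ closedBall z r).Nonempty} ≤
        ENNReal.ofReal (C * r ^ q) := by
    intro z hz r hr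
    rw [e0 r hr]
    rcases le_or_gt r d with hrd | hrd
    · refine (hit z r d hr hrd ((ball_subset_thickening hz d).trans hdD)).trans ?_
      apply ENNReal.ofReal_le_ofReal
      have : 0 ≤ (r / d) ^ q := by positivity
      linarith
    · refine prob_le_one.trans ?_
      rw [← ENNReal.ofReal_one]
      apply ENNReal.ofReal_le_ofReal
      have h3 : 1 ≤ (r / d) ^ q :=
        Real.one_le_rpow (by rw [one_le_div hd0]; exact hrd.le) hq.le
      nlinarith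
  -- one set
  have h2 : ∀ V : Set ℂ,
      μ {K | ((K : Set ℂ) ∩ (S ∩ V)).Nonempty} ≤
        ENNReal.ofReal C * (ediam V) ^ q := by
    intro V
    rcases (S ∩ V).eq_empty_or_nonempty with hV | ⟨z, hzS, hzV⟩
    · have : {K : NonemptyCompacts ℂ | ((K : Set ℂ) ∩ (S ∩ V)).Nonempty} = ∅ := by
        ext K; simp [hV]
      rw [this, measure_empty]
      exact zero_le
    by_cases hVt : ediam V = ⊤
    · rw [hVt, ENNReal.top_rpow_of_pos hq, ENNReal.mul_top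
        (ENNReal.ofReal_pos.mpr hCpos).ne']
      exact le_top
    set ρ := (ediam V).toReal with hρ
    have hρ0 : 0 ≤ ρ := ENNReal.toReal_nonneg
    have e1 : ediam V = ENNReal.ofReal ρ := (ENNReal.ofReal_toReal hVt).symm
    have h3 : ∀ r : ℝ, ρ < r →
        μ {K | ((K : Set ℂ) ∩ (S ∩ V)).Nonempty} ≤
          ENNReal.ofReal (C * r ^ q) := by
      intro r hr
      refine (measure_mono ?_).trans (h1 z (hS hzS) r (hρ0.trans_lt hr))
      rintro K ⟨w, hwK, -, hwV⟩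
      refine ⟨w, hwK, ?_⟩
      rw [mem_closedBall]
      have h4 : edist w z ≤ ENNReal.ofReal ρ := e1 ▸ edist_le_ediam_of_mem hwV hzV
      rw [edist_dist, ENNReal.ofReal_le_ofReal_iff hρ0] at h4
      linarith
    have h4 : Tendsto (fun r : ℝ => ENNReal.ofReal (C * r ^ q)) (𝓝[>] ρ)
        (𝓝 (ENNReal.ofReal (C * ρ ^ q))) := by
      apply ENNReal.tendsto_ofReal
      have h5 : ContinuousAt (fun r : ℝ => C * r ^ q) ρ :=
        (Real.continuousAt_rpow_const _ _ (Or.inr hq.le)).const_mul C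
      exact h5.tendsto.mono_left nhdsWithin_le_nhds
    have h6 : μ {K | ((K : Set ℂ) ∩ (S ∩ V)).Nonempty} ≤
        ENNReal.ofReal (C * ρ ^ q) := by
      refine ge_of_tendsto h4 ?_
      filter_upwards [self_mem_nhdsWithin] with r hr
      exact h3 r hr
    refine h6.trans (le_of_eq ?_)
    rw [e1, ENNReal.ofReal_rpow_of_nonneg hρ0 hq.le, ← ENNReal.ofReal_mul hCpos.le]
  have h3 : ∀ U : ℕ → Set ℂ, S ⊆ ⋃ n, U n →
      μ {K | ((K : Set ℂ) ∩ S).Nonempty} ≤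
        ENNReal.ofReal C * ∑' n, (ediam (U n)) ^ q := by
    intro U hU
    have h4 : {K : NonemptyCompacts ℂ | ((K : Set ℂ) ∩ S).Nonempty} ⊆
        ⋃ n, {K : NonemptyCompacts ℂ | ((K : Set ℂ) ∩ (S ∩ U n)).Nonempty} := by
      rintro K ⟨w, hwK, hwS⟩
      obtain ⟨n, hn⟩ := mem_iUnion.mp (hU hwS)
      exact mem_iUnion.mpr ⟨n, w, hwK, hwS, hn⟩
    refine (measure_mono h4).trans ((measure_iUnion_le _).trans ?_)
    rw [← ENNReal.tsum_mul_left]
    exact ENNReal.tsum_le_tsum fun n => h2 (U n)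
  have hC0' : ENNReal.ofReal C ≠ 0 := (ENNReal.ofReal_pos.mpr hCpos).ne'
  unfold content
  rw [ENNReal.mul_iInf_of_ne hC0' ENNReal.ofReal_ne_top]
  refine le_iInf fun U => ?_
  rw [ENNReal.mul_iInf_of_ne hC0' ENNReal.ofReal_ne_top]
  exact le_iInf fun hU => h3 U hU

/-- one-point and two-point lower bounds on the compact subsets of `D`, for a family of laws -/
def HL (M : Set (Measure (NonemptyCompacts ℂ))) (D : Set ℂ) (q : ℝ) : Prop :=
  ∀ Q : Set ℂ, IsCompact Q → Q ⊆ D →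
    (∃ c r0 : ℝ, 0 < c ∧ 0 < r0 ∧ ∀ μ ∈ M, H1 μ Q q c r0) ∧
    (∃ C r0 : ℝ, 0 < C ∧ 0 < r0 ∧ ∀ μ ∈ M, H2 μ Q q C r0)

omit [BorelSpace (NonemptyCompacts ℂ)] in
theorem H1.mono {μ : Measure (NonemptyCompacts ℂ)} {Q : Set ℂ} {q c r0 r1 : ℝ}
    (h : H1 μ Q q c r0) (hr : r1 ≤ r0) : H1 μ Q q c r1 :=
  fun z hz r h0 h1 => h z hz r h0 (h1.trans_le hr)

omit [BorelSpace (NonemptyCompacts ℂ)] in
theorem H2.mono {μ : Measure (NonemptyCompacts ℂ)} {Q : Set ℂ} {q C r0 r1 : ℝ}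
    (h : H2 μ Q q C r0) (hr : r1 ≤ r0) : H2 μ Q q C r1 :=
  fun z hz w hw r h0 h1 => h z hz w hw r h0 (h1.trans_le hr)

theorem H1.sub {μ : Measure (NonemptyCompacts ℂ)} {S Q : Set ℂ} {q c r0 : ℝ}
    (h : H1 μ Q q c r0) (hS : S ⊆ Q) : H1 μ S q c r0 :=
  fun z hz r h0 h1 => h z (hS hz) r h0 h1

theorem H2.sub {μ : Measure (NonemptyCompacts ℂ)} {S Q : Set ℂ} {q C r0 : ℝ}
    (h : H2 μ Q q C r0) (hS : S ⊆ Q) : H2 μ S q C r0 :=
  fun z hz w hw r h0 h1 => h z (hS hz) w (hS hw) r h0 h1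

/-- the capacity bound -/
theorem cap_low {M : Set (Measure (NonemptyCompacts ℂ))} {D : Set ℂ} {q : ℝ} (hq : 0 < q)
    (hM : HL M D q) (hMp : ∀ μ ∈ M, IsProbabilityMeasure μ) {Q : Set ℂ} (hQ : IsCompact Q)
    (hQD : Q ⊆ D) :
    ∃ c : ℝ, 0 < c ∧ ∀ μ ∈ M, ∀ S ⊆ Q, IsCompact S → ∀ ν : Measure ℂ, IsFiniteMeasure ν →
      ν Sᶜ = 0 → ENNReal.ofReal c * ν univ ^ 2 / energy q ν ≤
        μ {K | ((K : Set ℂ) ∩ S).Nonempty} := by
  obtain ⟨⟨c, r0, hc, hr0, h1⟩, C, r1, hC, hr1, h2⟩ := hM Q hQ hQD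
  refine ⟨c ^ 2 / C, by positivity, ?_⟩
  intro μ hμ S hSQ hS ν hν hνS
  have := hMp μ hμ
  by_cases hE : energy q ν = ⊤
  · rw [hE, ENNReal.div_top]
    exact zero_le
  have h3 := hit_lower hS hq.le hc.le hC.le (lt_min hr0 hr1)
    (H1.mono (H1.sub (h1 μ hμ) hSQ) (min_le_left _ _))
    (H2.mono (H2.sub (h2 μ hμ) hSQ) (min_le_right _ _)) ν hνS hE
  apply ENNReal.div_le_of_le_mul
  have e1 : ENNReal.ofReal (c ^ 2 / C) * ν univ ^ 2 =
      ENNReal.ofReal (1 / C) * (ENNReal.ofReal c * ν univ) ^ 2 := by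
    rw [mul_pow, ← mul_assoc, ← ENNReal.ofReal_pow hc.le, ← ENNReal.ofReal_mul (by positivity)]
    congr 2; ring
  rw [e1]
  calc ENNReal.ofReal (1 / C) * (ENNReal.ofReal c * ν univ) ^ 2
      ≤ ENNReal.ofReal (1 / C) * (ENNReal.ofReal C * energy q ν *
        μ {K | ((K : Set ℂ) ∩ S).Nonempty}) := by gcongr
    _ = (ENNReal.ofReal (1 / C) * ENNReal.ofReal C) * (energy q ν *
        μ {K | ((K : Set ℂ) ∩ S).Nonempty}) := by ring
    _ = energy q ν *
        μ {K | ((K : Set ℂ) ∩ S).Nonempty} := by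
        rw [← ENNReal.ofReal_mul (by positivity), one_div_mul_cancel hC.ne',
          ENNReal.ofReal_one, one_mul]
    _ = _ := mul_comm _ _

/-- a real number between -/
theorem exists_t {q : ℝ} (hq : 0 < q) {a d : ℝ≥0∞} (h : a + ENNReal.ofReal q < d) :
    ∃ t : ℝ, 0 < t ∧ a < ENNReal.ofReal t ∧ ENNReal.ofReal (q + t) < d := by
  obtain ⟨p, hq0, hq1, hq2⟩ := ENNReal.lt_iff_exists_real_btwn.mp h
  have h4 : q < p := by
    by_contra h5
    have h6 : ENNReal.ofReal p ≤ ENNReal.ofReal q := ENNReal.ofReal_le_ofReal (not_lt.mp h5)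
    exact absurd (hq1.trans_le h6) (not_lt.mpr le_add_self)
  refine ⟨p - q, by linarith, ?_, ?_⟩
  · have h7 : ENNReal.ofReal p = ENNReal.ofReal (p - q) + ENNReal.ofReal q := by
      rw [← ENNReal.ofReal_add (by linarith) hq.le]
      congr 1; ring
    rw [h7] at hq1
    exact (ENNReal.add_lt_add_iff_right ENNReal.ofReal_ne_top).mp hq1
  · have : q + (p - q) = p := by ring
    rw [this]; exact hq2

/-- lower bound for the essential supremum of the dimension of the intersection with a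
  countable union of compact sets -/
theorem ess_low {M : Set (Measure (NonemptyCompacts ℂ))} {D : Set ℂ} {q : ℝ} (hq : 0 < q)
    (hM : HL M D q) (hMp : ∀ μ ∈ M, IsProbabilityMeasure μ)
    {μ : Measure (NonemptyCompacts ℂ)} (hμ : μ ∈ M) {S : Set ℂ} (hS : IsSigmaCompact S)
    (hSD : S ⊆ D) {a : ℝ≥0∞}
    (h : ∀ᵐ K : NonemptyCompacts ℂ ∂μ, dimH (S ∩ (K : Set ℂ)) ≤ a) :
    dimH S ≤ a + ENNReal.ofReal q := by
  have := hMp μ hμ
  obtain ⟨T, hT, rfl⟩ := hS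
  by_contra hcon
  rw [not_le, dimH_iUnion, lt_iSup_iff] at hcon
  obtain ⟨n, hn⟩ := hcon
  obtain ⟨t, ht0, hat, htd⟩ := exists_t hq hn
  have hTD : T n ⊆ D := (subset_iUnion T n).trans hSD
  obtain ⟨⟨c, r0, hc, hr0, h1⟩, C, r1, hC, hr1, h2⟩ := hM (T n) (hT n) hTD
  have h3 := dim_pos (hT n) hq hc hC.le (lt_min hr0 hr1) ht0
    (H1.mono (h1 μ hμ) (min_le_left _ _)) (H2.mono (h2 μ hμ) (min_le_right _ _)) htd
  have h4 : μ {K | ENNReal.ofReal t ≤ dimH ((K : Set ℂ) ∩ T n)} = 0 := by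
    rw [ae_iff] at h
    refine measure_mono_null ?_ h
    intro K hK hK2
    have h5 : (K : Set ℂ) ∩ T n ⊆ (⋃ n, T n) ∩ (K : Set ℂ) :=
      fun z hz => ⟨mem_iUnion.mpr ⟨n, hz.2⟩, hz.1⟩
    have h6 : ENNReal.ofReal t ≤ dimH ((K : Set ℂ) ∩ T n) := hK
    have h7 := h6.trans ((dimH_mono h5).trans hK2)
    exact absurd hat (not_lt.mpr h7)
  rw [h4] at h3
  exact lt_irrefl 0 h3

/-- upper and lower bound for the dimension of the intersection -/
theorem codim {M : Set (Measure (NonemptyCompacts ℂ))} {D : Set ℂ} (hD : IsOpen D)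
    {q C0 : ℝ} (hq : 0 < q) (hC0 : 0 ≤ C0)
    (hM : HL M D q) (hMp : ∀ μ ∈ M, IsProbabilityMeasure μ)
    (hU : ∀ μ ∈ M, HU μ D q C0)
    {μ : Measure (NonemptyCompacts ℂ)} (hμ : μ ∈ M) : Codim id D (ENNReal.ofReal q) μ := by
  constructor
  · intro S hS
    filter_upwards [fixed_up hq hC0 hD (hU μ hμ) hS] with K hK
    rw [inter_comm]
    exact hK
  · intro S hS hSD a ha
    exact ess_low hq hM hMp hμ hS hSD ha

end Pool.Agent.Run7.h885.GF
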