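import Pool.Agent.Run7.h885.GF.Gen

/-!
Random compact sets and fixed sets: versions for subsets of a set which need not be open.
-/

namespace Pool.Agent.Run7.h885.GF

open MeasureTheory Metric Set Filter Topology TopologicalSpace
open scoped ENNReal NNReal
open H443B.FS (Hit)
open Pool.Agent.Run7.h885.FS

variable [MeasurableSpace (NonemptyCompacts ℂ)] [BorelSpace (NonemptyCompacts ℂ)]

/-- one-point upper bound at the points of `Q` -/
def U1 (μ : Measure (NonemptyCompacts ℂ)) (Q : Set ℂ) (q C r0 : ℝ) : Prop :=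
  ∀ z ∈ Q, ∀ r : ℝ, 0 < r → r ≤ r0 →
    μ {K : NonemptyCompacts ℂ | ((K : Set ℂ) ∩ closedBall z r).Nonempty} ≤
      ENNReal.ofReal (C * r ^ q)

/-- The law of a random compact set and a fixed set. -/
theorem fixed_upC {q : ℝ} (hq : 0 < q) {μ : Measure (NonemptyCompacts ℂ)}
    {D : Set ℂ} {Qn : ℕ → Set ℂ} (hD : D ⊆ ⋃ n, Qn n)
    (hit : ∀ n, ∃ C r0 : ℝ, 0 ≤ C ∧ 0 < r0 ∧ U1 μ (Qn n) q C r0) {A : Set ℂ} (hA : A ⊆ D) :
    ∀ᵐ K : NonemptyCompacts ℂ ∂μ,
      dimH ((K : Set ℂ) ∩ A) ≤ dimH A - ENNReal.ofReal q ∧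
        (dimH A < ENNReal.ofReal q → (K : Set ℂ) ∩ A = ∅) := by
  have hm : ∀ z r, MeasurableSet (Hit (fun K : NonemptyCompacts ℂ => (K : Set ℂ)) z r) :=
    fun z r => (NonemptyCompacts.isClosed_inter_nonempty_of_isClosed
      Metric.isClosed_closedBall).measurableSet
  choose C r0 hC hr0 hit using hit
  have hb : ∀ n : ℕ, ∀ z ∈ A ∩ Qn n, ∀ r : ℝ, 0 < r → r ≤ r0 n →
      μ (Hit (fun K : NonemptyCompacts ℂ => (K : Set ℂ)) z r)
        ≤ ENNReal.ofReal (C n) * ENNReal.ofReal r ^ q := by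
    intro n z hz r hr hr2
    have h1 := hit n z hz.2 r hr hr2
    rw [ENNReal.ofReal_rpow_of_pos hr, ← ENNReal.ofReal_mul (hC n)]
    exact h1
  have h1 : ∀ᵐ K : NonemptyCompacts ℂ ∂μ,
      ∀ (n : ℕ) (s : ℚ), q < (s : ℝ) → dimH A < ENNReal.ofReal s →
        μH[(s : ℝ) - q] ((K : Set ℂ) ∩ (A ∩ Qn n)) = 0 := by
    rw [ae_all_iff]
    intro n
    rw [ae_all_iff]
    intro s
    by_cases h3 : q < (s : ℝ)
    · by_cases h4 : dimH A < ENNReal.ofReal s
      · have h5 : μH[(s : ℝ)] (A ∩ Qn n) = 0 := by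
          have h6 : dimH (A ∩ Qn n) < ((Real.toNNReal s : ℝ≥0) : ℝ≥0∞) :=
            (dimH_mono Set.inter_subset_left).trans_lt h4
          have h7 := hausdorffMeasure_of_dimH_lt h6
          rwa [Real.coe_toNNReal _ (by linarith)] at h7
        filter_upwards [inter_zero hq (hr0 n) ENNReal.ofReal_ne_top hm (hb n) h3 h5] with K hK
        intro _ _
        exact hK
      · exact Eventually.of_forall fun K _ h => absurd h h4
    · exact Eventually.of_forall fun K h => absurd h h3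
  have h2 : ∀ᵐ K : NonemptyCompacts ℂ ∂μ,
      ∀ n : ℕ, dimH A < ENNReal.ofReal q → (K : Set ℂ) ∩ (A ∩ Qn n) = ∅ := by
    rw [ae_all_iff]
    intro n
    by_cases h4 : dimH A < ENNReal.ofReal q
    · have h5 : μH[q] (A ∩ Qn n) = 0 := by
        have h6 : dimH (A ∩ Qn n) < ((Real.toNNReal q : ℝ≥0) : ℝ≥0∞) :=
          (dimH_mono Set.inter_subset_left).trans_lt h4
        have h7 := hausdorffMeasure_of_dimH_lt h6
        rwa [Real.coe_toNNReal _ hq.le] at h7
      filter_upwards [polar hq (hr0 n) ENNReal.ofReal_ne_top (hb n) h5] with K hK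
      intro _
      exact hK
    · exact Eventually.of_forall fun K h => absurd h h4
  filter_upwards [h1, h2] with K k1 k2
  have hAU : A = ⋃ n, A ∩ Qn n := by
    rw [← Set.inter_iUnion, Set.inter_eq_left.mpr (hA.trans hD)]
  have hpol : dimH A < ENNReal.ofReal q → (K : Set ℂ) ∩ A = ∅ := by
    intro h
    rw [hAU, Set.inter_iUnion]
    exact Set.iUnion_eq_empty.mpr fun n => k2 n h
  refine ⟨?_, hpol⟩
  rcases lt_or_ge (dimH A) (ENNReal.ofReal q) with h | h
  · rw [hpol h, dimH_empty]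
    exact zero_le
  · apply ENNReal.le_sub_of_add_le_right ENNReal.ofReal_ne_top
    apply le_of_forall_gt_imp_ge_of_dense
    intro x hx
    obtain ⟨p, -, hq1, hq2⟩ := ENNReal.lt_iff_exists_rat_btwn.mp hx
    have hq4 : q < (p : ℝ) := by
      by_contra hcon
      have h5 : ((Real.toNNReal p : ℝ≥0) : ℝ≥0∞) ≤ ENNReal.ofReal q :=
        ENNReal.ofReal_le_ofReal (not_lt.mp hcon)
      exact absurd (hq1.trans_le h5) (not_lt.mpr h)
    have hsub : dimH ((K : Set ℂ) ∩ A) ≤ ENNReal.ofReal ((p : ℝ) - q) := by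
      rw [hAU, Set.inter_iUnion, dimH_iUnion]
      apply iSup_le
      intro n
      have h6 := k1 n p hq4 hq1
      apply dimH_le_of_hausdorffMeasure_ne_top (d := Real.toNNReal ((p : ℝ) - q))
      rw [Real.coe_toNNReal _ (by linarith), h6]
      exact ENNReal.zero_ne_top
    calc dimH ((K : Set ℂ) ∩ A) + ENNReal.ofReal q
        ≤ ENNReal.ofReal ((p : ℝ) - q) + ENNReal.ofReal q := by gcongr
      _ = ENNReal.ofReal p := by
          rw [← ENNReal.ofReal_add (by linarith) hq.le]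
          congr 1
          ring
      _ ≤ x := hq2.le


omit [BorelSpace (NonemptyCompacts ℂ)] in
/-- upper bound by the content -/
theorem content_upC {q C0 r0 : ℝ} (hq : 0 < q) (hC0 : 0 ≤ C0) (hr0 : 0 < r0) :
    ∃ C : ℝ, 0 < C ∧ ∀ (Q : Set ℂ) (μ : Measure (NonemptyCompacts ℂ)), IsProbabilityMeasure μ →
      U1 μ Q q C0 r0 → ∀ S ⊆ Q,
        μ {K | ((K : Set ℂ) ∩ S).Nonempty} ≤ ENNReal.ofReal C * content q S := by
  refine ⟨C0 + (1 / r0) ^ q, by positivity, ?_⟩
  set C := C0 + (1 / r0) ^ q with hC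
  have hCpos : 0 < C := by positivity
  intro Q μ hμp hit S hS
  have h1 : ∀ z ∈ Q, ∀ r : ℝ, 0 < r →
      μ {K | ((K : Set ℂ) ∩ closedBall z r).Nonempty} ≤
        ENNReal.ofReal (C * r ^ q) := by
    intro z hz r hr
    have h0 : 0 ≤ r ^ q := by positivity
    rcases le_or_gt r r0 with hrd | hrd
    · refine (hit z hz r hr hrd).trans ?_
      apply ENNReal.ofReal_le_ofReal
      apply mul_le_mul_of_nonneg_right _ h0
      have : 0 ≤ (1 / r0) ^ q := by positivity
      linarith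
    · refine prob_le_one.trans ?_
      rw [← ENNReal.ofReal_one]
      apply ENNReal.ofReal_le_ofReal
      have h3 : 1 ≤ (r / r0) ^ q :=
        Real.one_le_rpow (by rw [one_le_div hr0]; exact hrd.le) hq.le
      have h4 : (r / r0) ^ q = (1 / r0) ^ q * r ^ q := by
        rw [← Real.mul_rpow (by positivity) hr.le]
        congr 1; ring
      rw [h4] at h3
      have h5 : 0 ≤ C0 * r ^ q := by positivity
      calc (1 : ℝ) ≤ (1 / r0) ^ q * r ^ q := h3
        _ ≤ C0 * r ^ q + (1 / r0) ^ q * r ^ q := by linarith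
        _ = C * r ^ q := by rw [hC]; ring
  -- one set
  have h2 : ∀ V : Set ℂ,
      μ {K | ((K : Set ℂ) ∩ (S ∩ V)).Nonempty} ≤
        ENNReal.ofReal C * (ediam V) ^ q := by
    intro V
    rcases (S ∩ V).eq_empty_or_nonempty with hV | ⟨z, hzS, hzV⟩
    · have : {K : NonemptyCompacts ℂ | ((K : Set ℂ) ∩ (S ∩ V)).Nonempty} = ∅ := by
        ext K; simp [hV]
      rw [this, measure_empty]
      exact zero_le
    by_cases hVt : ediam V = ⊤
    · rw [hVt, ENNReal.top_rpow_of_pos hq, ENNReal.mul_top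
        (ENNReal.ofReal_pos.mpr hCpos).ne']
      exact le_top
    set ρ := (ediam V).toReal with hρ
    have hρ0 : 0 ≤ ρ := ENNReal.toReal_nonneg
    have e1 : ediam V = ENNReal.ofReal ρ := (ENNReal.ofReal_toReal hVt).symm
    have h3 : ∀ r : ℝ, ρ < r →
        μ {K | ((K : Set ℂ) ∩ (S ∩ V)).Nonempty} ≤
          ENNReal.ofReal (C * r ^ q) := by
      intro r hr
      refine (measure_mono ?_).trans (h1 z (hS hzS) r (hρ0.trans_lt hr))
      rintro K ⟨w, hwK, -, hwV⟩
      refine ⟨w, hwK, ?_⟩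
      rw [mem_closedBall]
      have h4 : edist w z ≤ ENNReal.ofReal ρ := e1 ▸ edist_le_ediam_of_mem hwV hzV
      rw [edist_dist, ENNReal.ofReal_le_ofReal_iff hρ0] at h4
      linarith
    have h4 : Tendsto (fun r : ℝ => ENNReal.ofReal (C * r ^ q)) (𝓝[>] ρ)
        (𝓝 (ENNReal.ofReal (C * ρ ^ q))) := by
      apply ENNReal.tendsto_ofReal
      have h5 : ContinuousAt (fun r : ℝ => C * r ^ q) ρ :=
        (Real.continuousAt_rpow_const _ _ (Or.inr hq.le)).const_mul C
      exact h5.tendsto.mono_left nhdsWithin_le_nhds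
    have h6 : μ {K | ((K : Set ℂ) ∩ (S ∩ V)).Nonempty} ≤
        ENNReal.ofReal (C * ρ ^ q) := by
      refine ge_of_tendsto h4 ?_
      filter_upwards [self_mem_nhdsWithin] with r hr
      exact h3 r hr
    refine h6.trans (le_of_eq ?_)
    rw [e1, ENNReal.ofReal_rpow_of_nonneg hρ0 hq.le, ← ENNReal.ofReal_mul hCpos.le]
  have h3 : ∀ U : ℕ → Set ℂ, S ⊆ ⋃ n, U n →
      μ {K | ((K : Set ℂ) ∩ S).Nonempty} ≤
        ENNReal.ofReal C * ∑' n, (ediam (U n)) ^ q := by
    intro U hU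
    have h4 : {K : NonemptyCompacts ℂ | ((K : Set ℂ) ∩ S).Nonempty} ⊆
        ⋃ n, {K : NonemptyCompacts ℂ | ((K : Set ℂ) ∩ (S ∩ U n)).Nonempty} := by
      rintro K ⟨w, hwK, hwS⟩
      obtain ⟨n, hn⟩ := mem_iUnion.mp (hU hwS)
      exact mem_iUnion.mpr ⟨n, w, hwK, hwS, hn⟩
    refine (measure_mono h4).trans ((measure_iUnion_le _).trans ?_)
    rw [← ENNReal.tsum_mul_left]
    exact ENNReal.tsum_le_tsum fun n => h2 (U n)
  have hC0' : ENNReal.ofReal C ≠ 0 := (ENNReal.ofReal_pos.mpr hCpos).ne'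
  unfold content
  rw [ENNReal.mul_iInf_of_ne hC0' ENNReal.ofReal_ne_top]
  refine le_iInf fun U => ?_
  rw [ENNReal.mul_iInf_of_ne hC0' ENNReal.ofReal_ne_top]
  exact le_iInf fun hU => h3 U hU


/-- upper and lower bound for the dimension of the intersection -/
theorem codimC {M : Set (Measure (NonemptyCompacts ℂ))} {D : Set ℂ} {Qn : ℕ → Set ℂ}
    (hD : D ⊆ ⋃ n, Qn n) {q : ℝ} (hq : 0 < q)
    (hM : HL M D q) (hMp : ∀ μ ∈ M, IsProbabilityMeasure μ)
    (hU : ∀ μ ∈ M, ∀ n, ∃ C r0 : ℝ, 0 ≤ C ∧ 0 < r0 ∧ U1 μ (Qn n) q C r0)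
    {μ : Measure (NonemptyCompacts ℂ)} (hμ : μ ∈ M) : Codim id D (ENNReal.ofReal q) μ := by
  constructor
  · intro S hS
    filter_upwards [fixed_upC hq hD (hU μ hμ) hS] with K hK
    rw [inter_comm]
    exact hK
  · intro S hS hSD a ha
    exact ess_low hq hM hMp hμ hS hSD ha

end Pool.Agent.Run7.h885.GF
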