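import Pool.Agent.Run7.h885.FS.Multi

/-!
Two families of independent random compact sets and a fixed set.
-/

namespace Pool.Agent.Run7.h885.GF

open MeasureTheory Set Metric Filter Topology TopologicalSpace
open scoped ENNReal NNReal
open Pool.Agent.Run7.h885.FS

/-- the points of `S` common to two families of sets -/
def I2 {j k : ℕ} (S : Set ℂ)
    (p : (Fin j → NonemptyCompacts ℂ) × (Fin k → NonemptyCompacts ℂ)) : Set ℂ :=
  (S ∩ ⋂ i, (p.1 i : Set ℂ)) ∩ ⋂ i, (p.2 i : Set ℂ)

theorem I2_eq {j k : ℕ} (S : Set ℂ)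
    (p : (Fin j → NonemptyCompacts ℂ) × (Fin k → NonemptyCompacts ℂ)) :
    I2 S p = II S (Sum.elim p.1 p.2) := by
  unfold I2 II
  ext z
  simp only [mem_inter_iff, mem_iInter, Sum.forall, Sum.elim_inl, Sum.elim_inr]
  tauto

theorem I2_eq2 {j k : ℕ} (S : Set ℂ)
    (p : (Fin j → NonemptyCompacts ℂ) × (Fin k → NonemptyCompacts ℂ)) :
    I2 S p = II (II S p.1) p.2 := rfl

variable [MeasurableSpace (NonemptyCompacts ℂ)]

theorem measurable_elim {j k : ℕ} : Measurable
    (fun p : (Fin j → NonemptyCompacts ℂ) × (Fin k → NonemptyCompacts ℂ) =>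
      (Sum.elim p.1 p.2 : Fin j ⊕ Fin k → NonemptyCompacts ℂ)) := by
  rw [measurable_pi_iff]
  rintro (i | i)
  · exact (measurable_pi_apply i).comp measurable_fst
  · exact (measurable_pi_apply i).comp measurable_snd

theorem two_fam [BorelSpace (NonemptyCompacts ℂ)] {D : Set ℂ} {q1 q2 : ℝ≥0∞} {j k : ℕ}
    {μ : Fin j → Measure (NonemptyCompacts ℂ)} {ν : Fin k → Measure (NonemptyCompacts ℂ)}
    (hμp : ∀ i, IsProbabilityMeasure (μ i)) (hνp : ∀ i, IsProbabilityMeasure (ν i))
    (hμ : ∀ i, Codim id D q1 (μ i)) (hν : ∀ i, Codim id D q2 (ν i)) {S : Set ℂ}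
    (hS : IsSigmaCompact S) (hSD : S ⊆ D) :
    (∀ᵐ p ∂((Measure.pi μ).prod (Measure.pi ν)),
      dimH (I2 S p) ≤ dimH S - (j * q1 + k * q2)) ∧
    (dimH S < j * q1 + k * q2 → ∀ᵐ p ∂((Measure.pi μ).prod (Measure.pi ν)), I2 S p = ∅) ∧
    ∀ a : ℝ≥0∞, (∀ᵐ p ∂((Measure.pi μ).prod (Measure.pi ν)), dimH (I2 S p) ≤ a) →
      dimH S ≤ a + (j * q1 + k * q2) := by
  obtain ⟨h1, h2⟩ := codim_pi (G := id) measurable_id hμp hμ hS hSD
  have hm1 : MeasurableSet {p : (Fin j → NonemptyCompacts ℂ) × (Fin k → NonemptyCompacts ℂ) |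
      dimH (I2 S p) ≤ dimH S - (j * q1 + k * q2)} := by
    simp_rw [I2_eq]
    exact (measurableSet_dim hS _).preimage measurable_elim
  have hm2 : MeasurableSet {p : (Fin j → NonemptyCompacts ℂ) × (Fin k → NonemptyCompacts ℂ) |
      I2 S p = ∅} := by
    simp_rw [I2_eq]
    exact (measurableSet_empty hS).preimage measurable_elim
  have key : ∀ y : Fin j → NonemptyCompacts ℂ, _ := fun y =>
    codim_pi (G := id) (D := D) (q := q2) (S := II S y) measurable_id hνp hν
      (IsSigmaCompact.inter_compacts hS y) (inter_subset_left.trans hSD)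
  refine ⟨?_, ?_, ?_⟩
  · rw [Measure.ae_prod_iff_ae_ae hm1]
    filter_upwards [h1] with y hy
    filter_upwards [(key y).1] with x hx
    rw [I2_eq2]
    refine hx.1.trans ?_
    rw [← tsub_tsub]
    exact tsub_le_tsub_right hy.1 _
  · intro hlt
    rw [Measure.ae_prod_iff_ae_ae hm2]
    filter_upwards [h1] with y hy
    by_cases hc : dimH S < j * q1
    · refine Eventually.of_forall fun x => ?_
      have h3 : II S y = ∅ := hy.2 hc
      rw [I2_eq2, h3]
      unfold II
      rw [empty_inter]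
    · filter_upwards [(key y).1] with x hx
      rw [I2_eq2]
      apply hx.2
      refine hy.1.trans_lt ?_
      exact ENNReal.sub_lt_of_lt_add (not_lt.mp hc) (by rwa [add_comm] at hlt)
  · intro a ha
    have h3 := Measure.ae_ae_of_ae_prod ha
    have h4 : ∀ᵐ y ∂(Measure.pi μ), dimH (II S (fun i => id (y i))) ≤ a + k * q2 := by
      filter_upwards [h3] with y hy
      exact (key y).2 a hy
    refine (h2 _ h4).trans (le_of_eq ?_)
    ring

end Pool.Agent.Run7.h885.GF
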