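import Pool.Agent.Run7.h885.GF.Gen

/-!
Two-point bounds: from two discs to the form used in the second moment method.
-/

namespace Pool.Agent.Run7.h885.GF

open MeasureTheory TopologicalSpace Filter Topology Set Metric
open scoped ENNReal
open Pool.Agent.Run7.h885.FS

variable [MeasurableSpace (NonemptyCompacts ℂ)] [BorelSpace (NonemptyCompacts ℂ)]

/-- two-disc upper bound in `D` -/
def TD (μ : Measure (NonemptyCompacts ℂ)) (D : Set ℂ) (q C : ℝ) : Prop :=
  ∀ (z w : ℂ) (r d : ℝ), 0 < r → 0 < d → ball z d ⊆ D → ball w d ⊆ D → z ≠ w →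
    μ ({K : NonemptyCompacts ℂ | ((K : Set ℂ) ∩ ball z r).Nonempty} ∩
        {K : NonemptyCompacts ℂ | ((K : Set ℂ) ∩ ball w r).Nonempty}) ≤
      ENNReal.ofReal (C * ((r / d) * (r / min (dist z w) d)) ^ q)

omit [MeasurableSpace (NonemptyCompacts ℂ)] [BorelSpace (NonemptyCompacts ℂ)] in
theorem hd_mem {z : ℂ} {r : ℝ} (hr : 0 < r) {K : NonemptyCompacts ℂ} (h : hd z K ≤ r) :
    ((K : Set ℂ) ∩ ball z (2 * r)).Nonempty := by
  obtain ⟨k, hk, hk2⟩ := exists_dist_le h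
  refine ⟨k, hk, ?_⟩
  rw [mem_ball, dist_comm]; linarith

omit [BorelSpace (NonemptyCompacts ℂ)] in
theorem h2_of_td {D : Set ℂ} (hD : IsOpen D) {q C0 : ℝ} (hq : 0 < q) (hC0 : 0 < C0)
    {Q : Set ℂ} (hQ : IsCompact Q) (hQD : Q ⊆ D) :
    ∃ C : ℝ, 0 < C ∧ ∀ μ : Measure (NonemptyCompacts ℂ), TD μ D q C0 → ∀ r0, H2 μ Q q C r0 := by
  obtain ⟨d, hd0, hdD⟩ := hQ.exists_thickening_subset_open hD hQD
  set L := max (diam Q) d with hL
  have hLpos : 0 < L := lt_max_of_lt_right hd0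
  refine ⟨C0 * (4 * L / d ^ 2) ^ q, by positivity, ?_⟩
  intro μ h r0 z hz w hw r hr _
  have hCr : 0 < C0 * (4 * L / d ^ 2) ^ q * r ^ (2 * q) := by positivity
  rcases eq_or_ne z w with rfl | hzw
  · have h1 : (edist z z) ^ (-q) = ⊤ := by
      rw [edist_self, ENNReal.zero_rpow_of_neg (by linarith)]
    rw [h1, ENNReal.mul_top (ENNReal.ofReal_pos.mpr hCr).ne']
    exact le_top
  have hDpos : 0 < dist z w := dist_pos.mpr hzw
  have hDL : dist z w ≤ L := (dist_le_diam_of_mem hQ.isBounded hz hw).trans (le_max_left _ _)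
  have hdL : d ≤ L := le_max_right _ _
  have hbz : ball z d ⊆ D := (ball_subset_thickening hz d).trans hdD
  have hbw : ball w d ⊆ D := (ball_subset_thickening hw d).trans hdD
  have h1 := h z w (2 * r) d (by positivity) hd0 hbz hbw hzw
  have hsub : {K : NonemptyCompacts ℂ | hd z K ≤ r ∧ hd w K ≤ r} ⊆
      {K : NonemptyCompacts ℂ | ((K : Set ℂ) ∩ Metric.ball z (2 * r)).Nonempty} ∩
          {K : NonemptyCompacts ℂ | ((K : Set ℂ) ∩ Metric.ball w (2 * r)).Nonempty} :=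
    fun K hK => ⟨hd_mem hr hK.1, hd_mem hr hK.2⟩
  refine (measure_mono hsub).trans (h1.trans ?_)
  rw [edist_dist, ENNReal.ofReal_rpow_of_pos hDpos, ← ENNReal.ofReal_mul hCr.le]
  apply ENNReal.ofReal_le_ofReal
  have hmin : dist z w * d / L ≤ min (dist z w) d := by
    apply le_min
    · rw [div_le_iff₀ hLpos]; exact mul_le_mul_of_nonneg_left hdL hDpos.le
    · rw [div_le_iff₀ hLpos, mul_comm]; exact mul_le_mul_of_nonneg_left hDL hd0.le
  have hm0 : 0 < dist z w * d / L := by positivity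
  have h2 : (2 * r / d) * (2 * r / min (dist z w) d) ≤
      (4 * L / d ^ 2) * (r ^ (2 : ℝ) * (dist z w)⁻¹) := by
    have h3 : 2 * r / min (dist z w) d ≤ 2 * r / (dist z w * d / L) :=
      div_le_div_of_nonneg_left (by positivity) hm0 hmin
    calc (2 * r / d) * (2 * r / min (dist z w) d)
        ≤ (2 * r / d) * (2 * r / (dist z w * d / L)) := by gcongr
      _ = _ := by
        rw [Real.rpow_two]
        field_simp
        ring
  have h4 : ((2 * r / d) * (2 * r / min (dist z w) d)) ^ q ≤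
      (4 * L / d ^ 2) ^ q * (r ^ (2 * q) * (dist z w) ^ (-q)) := by
    have h5 : 0 ≤ (2 * r / d) * (2 * r / min (dist z w) d) := by
      have : 0 < min (dist z w) d := lt_min hDpos hd0
      positivity
    calc ((2 * r / d) * (2 * r / min (dist z w) d)) ^ q
        ≤ ((4 * L / d ^ 2) * (r ^ (2 : ℝ) * (dist z w)⁻¹)) ^ q :=
          Real.rpow_le_rpow h5 h2 hq.le
      _ = _ := by
        rw [Real.mul_rpow (by positivity) (by positivity),
          Real.mul_rpow (by positivity) (by positivity), ← Real.rpow_mul hr.le,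
          Real.inv_rpow hDpos.le, ← Real.rpow_neg hDpos.le]
  calc C0 * ((2 * r / d) * (2 * r / min (dist z w) d)) ^ q
      ≤ C0 * ((4 * L / d ^ 2) ^ q *
        (r ^ (2 * q) * (dist z w) ^ (-q))) := by gcongr
    _ = _ := by ring

/-- lower bound in `D`: with the constant depending on the compact set -/
theorem hl_of {M : Set (Measure (NonemptyCompacts ℂ))} {D : Set ℂ} (hD : IsOpen D) {q C0 : ℝ}
    (hq : 0 < q) (hC0 : 0 < C0) (h2 : ∀ μ ∈ M, TD μ D q C0)
    (h1 : ∀ Q : Set ℂ, IsCompact Q → Q ⊆ D →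
      ∃ c r0 : ℝ, 0 < c ∧ 0 < r0 ∧ ∀ μ ∈ M, H1 μ Q q c r0) : HL M D q := by
  intro Q hQ hQD
  refine ⟨h1 Q hQ hQD, ?_⟩
  obtain ⟨C, hC, h⟩ := h2_of_td hD hq hC0 hQ hQD
  exact ⟨C, 1, hC, one_pos, fun μ hμ => h μ (h2 μ hμ) 1⟩

end Pool.Agent.Run7.h885.GF
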