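import Pool.Agent.Run7.h885.FS.Multi
import Pool.Agent.H443R3.BT.Fix

/-!
Intersections of a random set with a fixed set: if the random set meets small discs of radius `r`
with probability at most `C r ^ q`, its intersection with a fixed set of dimension `s` has
dimension at most `s - q`.
-/

namespace Pool.Agent.Run7.h885.GF

open MeasureTheory Metric Set Filter Topology TopologicalSpace
open scoped ENNReal NNReal
open H443B.FS (Hit cover ctr Ev ctr_mem mem_Ev)

section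

variable {Ω : Type*} [MeasurableSpace Ω] {μ : Measure Ω} {K : Ω → Set ℂ} {B : Set ℂ} {C : ℝ≥0∞}
  {r0 q : ℝ}

theorem hit_zero (hq : 0 < q) (hr0 : 0 < r0) (hC : C ≠ ∞)
    (hb : ∀ z ∈ B, ∀ r, 0 < r → r ≤ r0 → μ (Hit K z r) ≤ C * ENNReal.ofReal r ^ q)
    {z : ℂ} (hz : z ∈ B) : μ (Hit K z 0) = 0 := by
  have ht : Tendsto (fun r : ℝ => C * ENNReal.ofReal r ^ q) (𝓝[>] 0) (𝓝 0) := by
    have h1 : Tendsto (fun r : ℝ => C * ENNReal.ofReal r ^ q) (𝓝 0)
        (𝓝 (C * ENNReal.ofReal 0 ^ q)) := by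
      apply ENNReal.Tendsto.const_mul _ (Or.inr hC)
      exact (ENNReal.continuous_rpow_const.comp ENNReal.continuous_ofReal).tendsto 0
    rw [ENNReal.ofReal_zero, ENNReal.zero_rpow_of_pos hq, mul_zero] at h1
    exact h1.mono_left nhdsWithin_le_nhds
  apply le_antisymm _ zero_le
  refine ge_of_tendsto ht ?_
  filter_upwards [Ioc_mem_nhdsGT hr0] with r hr
  refine (measure_mono ?_).trans (hb z hz r hr.1 hr.2)
  rintro ω ⟨y, h1, h2⟩
  exact ⟨y, h1, closedBall_subset_closedBall hr.1.le h2⟩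

/-- the bound in terms of the extended diameter -/
theorem hit_ediam (hq : 0 < q) (hr0 : 0 < r0) (hC : C ≠ ∞)
    (hb : ∀ z ∈ B, ∀ r, 0 < r → r ≤ r0 → μ (Hit K z r) ≤ C * ENNReal.ofReal r ^ q)
    {z : ℂ} (hz : z ∈ B) {d : ℝ≥0∞} (hd : d ≤ ENNReal.ofReal r0) :
    μ (Hit K z d.toReal) ≤ C * d ^ q := by
  have hd' : d ≠ ∞ := (hd.trans_lt ENNReal.ofReal_lt_top).ne
  rcases eq_or_ne d 0 with rfl | h0
  · rw [ENNReal.toReal_zero, hit_zero hq hr0 hC hb hz]
    exact zero_le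
  · have h1 : 0 < d.toReal := ENNReal.toReal_pos h0 hd'
    have h2 : d.toReal ≤ r0 := ENNReal.toReal_le_of_le_ofReal hr0.le hd
    have := hb z hz d.toReal h1 h2
    rwa [ENNReal.ofReal_toReal hd'] at this

theorem Ev_le (hq : 0 < q) (hr0 : 0 < r0) (hC : C ≠ ∞)
    (hb : ∀ z ∈ B, ∀ r, 0 < r → r ≤ r0 → μ (Hit K z r) ≤ C * ENNReal.ofReal r ^ q)
    {t : Set ℂ} (ht : ediam t ≤ ENNReal.ofReal r0) :
    μ (Ev K B t) ≤ ⨆ _ : t.Nonempty, C * ediam t ^ q := by
  unfold Ev
  split_ifs with h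
  · have hne : t.Nonempty := ⟨_, (ctr_mem h).2⟩
    rw [iSup_pos hne]
    exact hit_ediam hq hr0 hC hb (ctr_mem h).1 ht
  · simp

/-- Sets with small measure are not hit. -/
theorem polar (hq : 0 < q) (hr0 : 0 < r0) (hC : C ≠ ∞)
    (hb : ∀ z ∈ B, ∀ r, 0 < r → r ≤ r0 → μ (Hit K z r) ≤ C * ENNReal.ofReal r ^ q)
    (hB : μH[q] B = 0) : ∀ᵐ ω ∂μ, K ω ∩ B = ∅ := by
  have key : ∀ ε : ℝ≥0∞, 0 < ε → μ {ω | ¬ K ω ∩ B = ∅} ≤ C * ε := by
    intro ε hε
    obtain ⟨t, h1, h2, h3⟩ := cover hB (r := ENNReal.ofReal r0) (by simpa using hr0) hε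
    have hsub : {ω | ¬ K ω ∩ B = ∅} ⊆ ⋃ n, Ev K B (t n) := by
      intro ω hω
      obtain ⟨y, hy⟩ := Set.nonempty_iff_ne_empty.mpr hω
      obtain ⟨n, hn⟩ := mem_iUnion.mp (h1 hy.2)
      exact mem_iUnion.mpr ⟨n, mem_Ev ((h2 n).trans_lt ENNReal.ofReal_lt_top).ne
        ⟨y, hy, hn⟩⟩
    calc μ {ω | ¬ K ω ∩ B = ∅} ≤ μ (⋃ n, Ev K B (t n)) := measure_mono hsub
      _ ≤ ∑' n, μ (Ev K B (t n)) := measure_iUnion_le _
      _ ≤ ∑' n, C * ⨆ _ : (t n).Nonempty, ediam (t n) ^ q := by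
          apply ENNReal.tsum_le_tsum
          intro n
          refine (Ev_le hq hr0 hC hb (h2 n)).trans ?_
          apply iSup_le
          intro hne
          rw [iSup_pos hne]
      _ = C * ∑' n, ⨆ _ : (t n).Nonempty, ediam (t n) ^ q := ENNReal.tsum_mul_left
      _ ≤ C * ε := by gcongr
  rw [ae_iff]
  apply le_antisymm _ zero_le
  have ht : Tendsto (fun ε : ℝ≥0∞ => C * ε) (𝓝[>] 0) (𝓝 0) := by
    have h1 : Tendsto (fun ε : ℝ≥0∞ => C * ε) (𝓝 0) (𝓝 (C * 0)) :=
      ENNReal.Tendsto.const_mul tendsto_id (Or.inr hC)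
    rw [mul_zero] at h1
    exact h1.mono_left nhdsWithin_le_nhds
  refine ge_of_tendsto ht ?_
  filter_upwards [self_mem_nhdsWithin] with ε hε
  exact key ε hε

/-- The measure of the intersection. -/
theorem inter_zero (hq : 0 < q) (hr0 : 0 < r0) (hC : C ≠ ∞) (hm : ∀ z r, MeasurableSet (Hit K z r))
    (hb : ∀ z ∈ B, ∀ r, 0 < r → r ≤ r0 → μ (Hit K z r) ≤ C * ENNReal.ofReal r ^ q)
    {s : ℝ} (hs : q < s) (hB : μH[s] B = 0) : ∀ᵐ ω ∂μ, μH[s - q] (K ω ∩ B) = 0 := by
  have hpos : ∀ m : ℕ, (0 : ℝ≥0∞) < min (ENNReal.ofReal r0) (((m : ℝ≥0∞) + 1)⁻¹) := by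
    intro m
    apply lt_min
    · simpa using hr0
    · rw [ENNReal.inv_pos]
      exact (ENNReal.add_lt_top.mpr ⟨ENNReal.natCast_lt_top m, ENNReal.one_lt_top⟩).ne
  choose t h1 h2 h3 using fun m : ℕ => cover hB (hpos m)
    (show (0 : ℝ≥0∞) < (1/2) ^ m from ENNReal.pow_pos (by simp) m)
  have hEvm : ∀ m n, MeasurableSet (Ev K B (t m n)) := by
    intro m n
    unfold Ev
    split_ifs
    · exact hm _ _
    · exact MeasurableSet.empty
  set G : ℕ → Ω → ℝ≥0∞ := fun m ω =>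
    ∑' n, (Ev K B (t m n)).indicator (fun _ => ediam (t m n) ^ (s - q)) ω with hG
  have hGm : ∀ m, Measurable (G m) := fun m =>
    Measurable.ennreal_tsum fun n => measurable_const.indicator (hEvm m n)
  have hd : ∀ m n, ediam (t m n) ≤ ENNReal.ofReal r0 := fun m n =>
    (h2 m n).trans (min_le_left _ _)
  have hint : ∀ m, ∫⁻ ω, G m ω ∂μ ≤ C * (1/2) ^ m := by
    intro m
    rw [hG]
    show ∫⁻ ω, ∑' n, (Ev K B (t m n)).indicator (fun _ => ediam (t m n) ^ (s - q)) ω ∂μ ≤ _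
    rw [lintegral_tsum fun n => (measurable_const.indicator (hEvm m n)).aemeasurable]
    calc ∑' n, ∫⁻ ω, (Ev K B (t m n)).indicator (fun _ => ediam (t m n) ^ (s - q)) ω ∂μ
        ≤ ∑' n, C * ⨆ _ : (t m n).Nonempty, ediam (t m n) ^ s := by
          apply ENNReal.tsum_le_tsum
          intro n
          rw [lintegral_indicator_const (hEvm m n)]
          calc ediam (t m n) ^ (s - q) * μ (Ev K B (t m n))
              ≤ ediam (t m n) ^ (s - q) * ⨆ _ : (t m n).Nonempty, C * ediam (t m n) ^ q :=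
                by gcongr; exact Ev_le hq hr0 hC hb (hd m n)
            _ ≤ C * ⨆ _ : (t m n).Nonempty, ediam (t m n) ^ s := by
                by_cases hne : (t m n).Nonempty
                · rw [iSup_pos hne, iSup_pos hne]
                  have e : ediam (t m n) ^ s =
                      ediam (t m n) ^ (s - q) * ediam (t m n) ^ q := by
                    rw [← ENNReal.rpow_add_of_nonneg _ _ (by linarith) hq.le]
                    congr 1
                    ring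
                  rw [e]
                  apply le_of_eq
                  ring
                · simp [hne]
      _ = C * ∑' n, ⨆ _ : (t m n).Nonempty, ediam (t m n) ^ s := ENNReal.tsum_mul_left
      _ ≤ C * (1/2) ^ m := by
          have := h3 m
          gcongr
  have htot : ∫⁻ ω, ∑' m, G m ω ∂μ ≠ ∞ := by
    rw [lintegral_tsum fun m => (hGm m).aemeasurable]
    have h4 : ∑' m, ∫⁻ ω, G m ω ∂μ ≤ ∑' m : ℕ, C * (1/2) ^ m := ENNReal.tsum_le_tsum hint
    refine (h4.trans_lt ?_).ne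
    rw [ENNReal.tsum_mul_left, ENNReal.tsum_geometric]
    apply ENNReal.mul_lt_top hC.lt_top
    rw [ENNReal.inv_lt_top]
    simp
  have hae := ae_lt_top (Measurable.ennreal_tsum hGm) htot
  filter_upwards [hae] with ω hω
  have hlim : Tendsto (fun m => G m ω) atTop (𝓝 0) :=
    ENNReal.tendsto_atTop_zero_of_tsum_ne_top hω.ne
  apply le_antisymm _ zero_le
  classical
  set t' : ℕ → ℕ → Set ℂ := fun m n => if (K ω ∩ B ∩ t m n).Nonempty then t m n else ∅ with ht'
  have hr : Tendsto (fun m : ℕ => ((m : ℝ≥0∞) + 1)⁻¹) atTop (𝓝 0) := by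
    have h5 : Tendsto (fun m : ℕ => (m : ℝ≥0∞) + 1) atTop (𝓝 ∞) :=
      tendsto_nhds_top_mono ENNReal.tendsto_nat_nhds_top
        (Eventually.of_forall fun m => le_self_add)
    have h6 := ENNReal.tendsto_inv_iff.mpr h5
    rw [ENNReal.inv_top] at h6
    exact h6
  have hle := Measure.hausdorffMeasure_le_liminf_tsum (s - q) (K ω ∩ B) (l := atTop)
    (fun m : ℕ => ((m : ℝ≥0∞) + 1)⁻¹) hr t' (Eventually.of_forall fun m n => by
      show ediam (if (K ω ∩ B ∩ t m n).Nonempty then t m n else ∅) ≤ _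
      split_ifs
      · exact (h2 m n).trans (min_le_right _ _)
      · simp) (Eventually.of_forall fun m => by
      intro y hy
      obtain ⟨n, hn⟩ := mem_iUnion.mp (h1 m hy.2)
      refine mem_iUnion.mpr ⟨n, ?_⟩
      show y ∈ (if (K ω ∩ B ∩ t m n).Nonempty then t m n else ∅)
      rw [if_pos ⟨y, hy, hn⟩]
      exact hn)
  refine hle.trans ?_
  have hle2 : ∀ m, ∑' n, ediam (t' m n) ^ (s - q) ≤ G m ω := by
    intro m
    apply ENNReal.tsum_le_tsum
    intro n
    show ediam (if (K ω ∩ B ∩ t m n).Nonempty then t m n else ∅) ^ (s - q) ≤ _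
    split_ifs with h
    · rw [indicator_of_mem (mem_Ev ((hd m n).trans_lt ENNReal.ofReal_lt_top).ne h)]
    · rw [ediam_empty, ENNReal.zero_rpow_of_pos (by linarith)]
      exact zero_le
  calc liminf (fun m => ∑' n, ediam (t' m n) ^ (s - q)) atTop
      ≤ liminf (fun m => G m ω) atTop := by
        apply liminf_le_liminf (Eventually.of_forall hle2)
    _ = 0 := hlim.liminf_eq

end

section

variable [MeasurableSpace (NonemptyCompacts ℂ)] [BorelSpace (NonemptyCompacts ℂ)]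

/-- one-point upper bound in `D` -/
def HU (μ : Measure (NonemptyCompacts ℂ)) (D : Set ℂ) (q C : ℝ) : Prop :=
  ∀ (z : ℂ) (r s : ℝ), 0 < r → r ≤ s → ball z s ⊆ D →
    μ {K : NonemptyCompacts ℂ | ((K : Set ℂ) ∩ closedBall z r).Nonempty} ≤
      ENNReal.ofReal (C * (r / s) ^ q)

/-- The law of a random compact set and a fixed set. -/
theorem fixed_up {q C : ℝ} (hq : 0 < q) (hC : 0 ≤ C) {μ : Measure (NonemptyCompacts ℂ)}
    {D : Set ℂ} (hD : IsOpen D) (hit : HU μ D q C) {A : Set ℂ} (hA : A ⊆ D) :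
    ∀ᵐ K : NonemptyCompacts ℂ ∂μ,
      dimH ((K : Set ℂ) ∩ A) ≤ dimH A - ENNReal.ofReal q ∧
        (dimH A < ENNReal.ofReal q → (K : Set ℂ) ∩ A = ∅) := by
  have hm : ∀ z r, MeasurableSet (Hit (fun K : NonemptyCompacts ℂ => (K : Set ℂ)) z r) :=
    fun z r => (NonemptyCompacts.isClosed_inter_nonempty_of_isClosed
      Metric.isClosed_closedBall).measurableSet
  have hb : ∀ n : ℕ, ∀ z ∈ A ∩ H443B.inn D n, ∀ r : ℝ, 0 < r → r ≤ 1 / ((n : ℝ) + 1) →
      μ (Hit (fun K : NonemptyCompacts ℂ => (K : Set ℂ)) z r)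
        ≤ ENNReal.ofReal (C * ((n : ℝ) + 1) ^ q) * ENNReal.ofReal r ^ q := by
    intro n z hz r hr hr2
    have h1 := hit z r (1 / ((n : ℝ) + 1)) hr hr2 hz.2
    have e : C * (r / (1 / ((n : ℝ) + 1))) ^ q =
        C * ((n : ℝ) + 1) ^ q * r ^ q := by
      rw [mul_assoc, ← Real.mul_rpow (by positivity) hr.le]
      congr 2
      field_simp
    rw [e] at h1
    rw [ENNReal.ofReal_rpow_of_pos hr, ← ENNReal.ofReal_mul (by positivity)]
    exact h1
  have hr0 : ∀ n : ℕ, (0 : ℝ) < 1 / ((n : ℝ) + 1) := fun n => by positivity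
  have h1 : ∀ᵐ K : NonemptyCompacts ℂ ∂μ,
      ∀ (n : ℕ) (s : ℚ), q < (s : ℝ) → dimH A < ENNReal.ofReal s →
        μH[(s : ℝ) - q] ((K : Set ℂ) ∩ (A ∩ H443B.inn D n)) = 0 := by
    rw [ae_all_iff]
    intro n
    rw [ae_all_iff]
    intro s
    by_cases h3 : q < (s : ℝ)
    · by_cases h4 : dimH A < ENNReal.ofReal s
      · have h5 : μH[(s : ℝ)] (A ∩ H443B.inn D n) = 0 := by
          have h6 : dimH (A ∩ H443B.inn D n) < ((Real.toNNReal s : ℝ≥0) : ℝ≥0∞) :=
            (dimH_mono Set.inter_subset_left).trans_lt h4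
          have h7 := hausdorffMeasure_of_dimH_lt h6
          rwa [Real.coe_toNNReal _ (by linarith)] at h7
        filter_upwards [inter_zero hq (hr0 n) ENNReal.ofReal_ne_top hm (hb n) h3 h5] with K hK
        intro _ _
        exact hK
      · exact Eventually.of_forall fun K _ h => absurd h h4
    · exact Eventually.of_forall fun K h => absurd h h3
  have h2 : ∀ᵐ K : NonemptyCompacts ℂ ∂μ,
      ∀ n : ℕ, dimH A < ENNReal.ofReal q → (K : Set ℂ) ∩ (A ∩ H443B.inn D n) = ∅ := by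
    rw [ae_all_iff]
    intro n
    by_cases h4 : dimH A < ENNReal.ofReal q
    · have h5 : μH[q] (A ∩ H443B.inn D n) = 0 := by
        have h6 : dimH (A ∩ H443B.inn D n) < ((Real.toNNReal q : ℝ≥0) : ℝ≥0∞) :=
          (dimH_mono Set.inter_subset_left).trans_lt h4
        have h7 := hausdorffMeasure_of_dimH_lt h6
        rwa [Real.coe_toNNReal _ hq.le] at h7
      filter_upwards [polar hq (hr0 n) ENNReal.ofReal_ne_top (hb n) h5] with K hK
      intro _
      exact hK
    · exact Eventually.of_forall fun K h => absurd h h4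
  filter_upwards [h1, h2] with K k1 k2
  have hAU := H443B.iUnion_inn hD hA
  have hpol : dimH A < ENNReal.ofReal q → (K : Set ℂ) ∩ A = ∅ := by
    intro h
    rw [hAU, Set.inter_iUnion]
    exact Set.iUnion_eq_empty.mpr fun n => k2 n h
  refine ⟨?_, hpol⟩
  rcases lt_or_ge (dimH A) (ENNReal.ofReal q) with h | h
  · rw [hpol h, dimH_empty]
    exact zero_le
  · apply ENNReal.le_sub_of_add_le_right ENNReal.ofReal_ne_top
    apply le_of_forall_gt_imp_ge_of_dense
    intro x hx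
    obtain ⟨p, -, hq1, hq2⟩ := ENNReal.lt_iff_exists_rat_btwn.mp hx
    have hq4 : q < (p : ℝ) := by
      by_contra hcon
      have h5 : ((Real.toNNReal p : ℝ≥0) : ℝ≥0∞) ≤ ENNReal.ofReal q :=
        ENNReal.ofReal_le_ofReal (not_lt.mp hcon)
      exact absurd (hq1.trans_le h5) (not_lt.mpr h)
    have hsub : dimH ((K : Set ℂ) ∩ A) ≤ ENNReal.ofReal ((p : ℝ) - q) := by
      rw [hAU, Set.inter_iUnion, dimH_iUnion]
      apply iSup_le
      intro n
      have h6 := k1 n p hq4 hq1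
      apply dimH_le_of_hausdorffMeasure_ne_top (d := Real.toNNReal ((p : ℝ) - q))
      rw [Real.coe_toNNReal _ (by linarith), h6]
      exact ENNReal.zero_ne_top
    calc dimH ((K : Set ℂ) ∩ A) + ENNReal.ofReal q
        ≤ ENNReal.ofReal ((p : ℝ) - q) + ENNReal.ofReal q := by gcongr
      _ = ENNReal.ofReal p := by
          rw [← ENNReal.ofReal_add (by linarith) hq.le]
          congr 1
          ring
      _ ≤ x := hq2.le

end

end Pool.Agent.Run7.h885.GF
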